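import Pool.Agent.Y329.CG.Stm

/-!
# Project CG (helper329): joint continuity of the entire functions (job 5439)
-/

set_option autoImplicit false

open Set Filter Topology MeasureTheory

namespace Pool.Agent.Y434.CG.PS2

open Pool.Agent.Y329.CG

theorem done : Pool.Agent.Y329.CG.S_PS2 := by
  unfold Pool.Agent.Y329.CG.S_PS2
  rw [continuous_iff_continuousAt]
  intro z
  obtain ⟨R, hR⟩ : ∃ R : ℝ, R = |z.2| + 1 := ⟨_, rfl⟩
  have hR0 : 0 ≤ R := by rw [hR]; positivity
  have hc : ContinuousOn (fun z : Om × ℝ => ∑' n, (sq z.1 n) * ((n.factorial : ℝ)⁻¹ * z.2 ^ n))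
      {z : Om × ℝ | |z.2| < R} := by
    refine continuousOn_tsum (u := fun n : ℕ => R ^ n / n.factorial) (fun n => ?_)
      (Real.summable_pow_div_factorial R) (fun n w hw => ?_)
    · refine Continuous.continuousOn ?_
      have h1 : Continuous fun w : Om × ℝ => sq w.1 n :=
        continuous_subtype_val.comp ((continuous_apply n).comp continuous_fst)
      exact h1.mul (continuous_const.mul (continuous_snd.pow n))
    · have h1 : |sq w.1 n| ≤ 1 := abs_le.2 (w.1 n).2
      have h2 : |w.2| < R := hw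
      have h3 : (0 : ℝ) < n.factorial := by exact_mod_cast n.factorial_pos
      rw [Real.norm_eq_abs, abs_mul, abs_mul, abs_inv, abs_pow, Nat.abs_cast, div_eq_inv_mul]
      have h4 : |w.2| ^ n ≤ R ^ n := pow_le_pow_left₀ (abs_nonneg _) h2.le n
      calc |sq w.1 n| * ((n.factorial : ℝ)⁻¹ * |w.2| ^ n) ≤
          1 * ((n.factorial : ℝ)⁻¹ * R ^ n) :=
            mul_le_mul h1 (mul_le_mul_of_nonneg_left h4 (by positivity)) (by positivity)
              zero_le_one
        _ = (n.factorial : ℝ)⁻¹ * R ^ n := one_mul _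
  refine hc.continuousAt (IsOpen.mem_nhds (isOpen_lt (continuous_snd.abs) continuous_const) ?_)
  show |z.2| < R
  rw [hR]
  linarith

end Pool.Agent.Y434.CG.PS2
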